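import Pool.Agent.W_7d29a1_P79.Sec79
import Pool.Agent.W_7d29a1_P89.Main
import Pool.Agent.W_7d29a1_Q29.Defs29
import Pool.Agent.W_7d29a1_VT.Fin53

/-!
# Theorem (R) from very strong disorder, in the letters of the model and of the problem
-/

set_option autoImplicit false

namespace Pool.Agent.W_7d29a1_P79

open MeasureTheory ProbabilityTheory Filter Topology Pool.Agent.W_MP_7d29a1_pr
  Pool.Agent.W_7d29a1_h46 Pool.Agent.W_7d29a1_h46u Pool.Agent.W_7d29a1_D2.B35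
  Pool.Agent.W_7d29a1_P89 Pool.Agent.W_7d29a1_Q29

variable {d : ℕ} {ρ : Measure ℝ} [IsProbabilityMeasure ρ] {β : ℝ} {h : Vec d}

lemma hP79 (hd : 0 < d) (hρ : EM ρ) (hV : VSD ρ β h) :
    ∀ t : ℝ, 0 < t → t ≤ 1 → ∃ n, 1 < aP ρ (⟨lam ρ β h, β, h, 1⟩ : Prm d) n t := by
  intro t h0 h1
  refine mainP hd hρ _ rfl ?_ h0 h1
  have h2 : lam ρ β h < Real.log (Phi h) + Real.log (∫ t, Real.exp (β * t) ∂ρ) := hV
  unfold Phi at h2
  show lam ρ β h < Real.log (∫ x, Real.exp (β * x) ∂ρ) +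
    Real.log (∑ e : Step d, Real.exp (inner ℝ h (emb (vec e))))
  linarith

/-- **Theorem (R)**: in very strong disorder, for every `B` and all large `n`, some `m ≤ n` has
`(m lam - E log Z_m) + sd (log Z_m) ≥ B log n`. -/
theorem endR79 (hd : 0 < d) (hρ : EM ρ) (hV : VSD ρ β h) (B : ℝ) :
    ∀ᶠ n : ℕ in atTop, ∃ m : ℕ, 1 ≤ m ∧ m ≤ n ∧
      B * Real.log n ≤ (m * lam ρ β h - A ρ β h m) + Real.sqrt (Va ρ β h m) := by
  have h1 := mainR79 hd hρ (⟨lam ρ β h, β, h, 1⟩ : Prm d) rfl (hP79 hd hρ hV) B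
  filter_upwards [h1] with n hn
  obtain ⟨m, hm1, hmn, hm⟩ := hn
  refine ⟨m, hm1, hmn, hm.trans (le_of_eq ?_)⟩
  unfold Va
  simp only [sq_abs]

variable {Ω : Type*} [MeasurableSpace Ω] {μ : Measure Ω} [IsProbabilityMeasure μ]
  {ω : ℕ × Site d → Ω → ℝ}

/-- **Theorem (R)** in the letters of the problem. -/
theorem probR79 (hd : 0 < d) (hω : IID μ ρ ω) (hρ : EM ρ) (hV : VSD ρ β h) (B : ℝ) :
    ∀ᶠ n : ℕ in atTop, ∃ m : ℕ, 1 ≤ m ∧ m ≤ n ∧ B * Real.log n ≤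
      (m * (lam ρ β h - Real.log (2 * d)) - ∫ y, Real.log (Zn β h (fun p => ω p y) m) ∂μ) +
        Real.sqrt Var[fun y => Real.log (Zn β h (fun p => ω p y) m); μ] := by
  filter_upwards [mainR79 hd hρ (⟨lam ρ β h, β, h, 1⟩ : Prm d) rfl (hP79 hd hρ hV) B] with n hn
  obtain ⟨m, hm1, hmn, hm⟩ := hn
  refine ⟨m, hm1, hmn, hm.trans (le_of_eq ?_)⟩
  rw [Pool.Agent.W_7d29a1_VT.mean74 hd hω hρ, Pool.Agent.W_7d29a1_VT.var_eq53 hd hω hρ]
  ring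

/-- **Theorem (R)** in the letters of the problem, second moment form. -/
theorem probS79 (hd : 0 < d) (hω : IID μ ρ ω) (hρ : EM ρ) (hV : VSD ρ β h) (B : ℝ) :
    ∀ᶠ n : ℕ in atTop, ∃ m : ℕ, 1 ≤ m ∧ m ≤ n ∧ B * Real.log n ^ 2 ≤
      ∫ y, (Real.log (Zn β h (fun p => ω p y) m) - m * (lam ρ β h - Real.log (2 * d))) ^ 2 ∂μ :=
  prob79 hd hω hρ β h (hP79 hd hρ hV) B

end Pool.Agent.W_7d29a1_P79
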