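import Pool.Agent.W_7d29a1_P78.Fin
import Pool.Agent.W_7d29a1_VT.ExcT10

/-!
# Theorem (R): the fluctuations of the free energy are larger than `log n`

In very strong disorder, in every dimension, the random and the non-random fluctuations of the free
energy together are larger than every multiple of `log n`.
-/

set_option autoImplicit false

namespace Pool.Agent.W_7d29a1_P79

open MeasureTheory ProbabilityTheory Filter Topology Pool.Agent.W_MP_7d29a1_pr
  Pool.Agent.W_7d29a1_h46 Pool.Agent.W_7d29a1_h46u Pool.Agent.W_7d29a1_D2.B35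
  Pool.Agent.W_7d29a1_P89 Pool.Agent.W_7d29a1_P78 Pool.Agent.W_7d29a1_VT.Exc10

variable {d : ℕ} {ρ : Measure ℝ}

/-- A supermultiplicative sequence with a value above `1` grows faster than polynomials. -/
lemma grow79 {a : ℕ → ℝ} (hpos : ∀ n, 0 < a n) (hsup : ∀ m n, a m * a n ≤ a (m + n))
    (h : ∃ n, 1 < a n) (C : ℝ) (k : ℕ) : ∃ n : ℕ, 1 ≤ n ∧ C * (2 * (n : ℝ) + 1) ^ k < a n := by
  obtain ⟨n, hn⟩ := h
  have hn1 : 1 ≤ n := by
    rcases Nat.eq_zero_or_pos n with h | h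
    · exfalso
      subst h
      have h2 := hsup 0 0
      simp only [add_zero] at h2
      have h3 := hpos 0
      nlinarith
    · exact h
  have hpow : ∀ m : ℕ, 1 ≤ m → (a n) ^ m ≤ a (m * n) := by
    intro m hm
    induction m, hm using Nat.le_induction with
    | base => simp
    | succ m hm ih =>
      calc (a n) ^ (m + 1) = (a n) ^ m * a n := pow_succ _ _
        _ ≤ a (m * n) * a n := mul_le_mul_of_nonneg_right ih (hpos n).le
        _ ≤ a (m * n + n) := hsup _ _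
        _ = a ((m + 1) * n) := by ring_nf
  obtain ⟨m, hm1, hm2⟩ := exp_beats (C := C) hn n k
  exact ⟨m * n, Nat.mul_pos hm1 hn1, hm2.trans_le (hpow m hm1)⟩

lemma aP_pos79 [IsProbabilityMeasure ρ] (hd : 0 < d) (hρ : EM ρ) (P : Prm d) (n : ℕ) {t : ℝ}
    (h0 : 0 ≤ t) (h1 : t ≤ 1) : 0 < aP ρ P n t := by
  unfold aP
  rw [integral_pos_iff_support_of_nonneg
    (fun η => Real.rpow_nonneg (ZH_pos78 hd P η n).le _)
    (integrable_ZH_rpow78 hd hρ P n h0 h1)]
  have : Function.support (fun η : Env d => ZH P η n ^ t) = Set.univ := by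
    refine Set.eq_univ_of_forall fun η => ?_
    exact (Real.rpow_pos_of_pos (ZH_pos78 hd P η n) t).ne'
  rw [this, measure_univ]
  exact one_pos

/-- The lucky pair. -/
lemma pair79 [IsProbabilityMeasure ρ] (hd : 0 < d) (hρ : EM ρ) (P : Prm d)
    (hP : ∀ t : ℝ, 0 < t → t ≤ 1 → ∃ n, 1 < aP ρ P n t) {t : ℝ} (ht : 0 < t) (ht1 : t ≤ 1) :
    ∃ (k : ℕ) (y : Site d) (u : ℝ), 1 ≤ k ∧ 1 ≤ u ∧
      Real.exp (-(t * u)) ≤ (law d ρ).real {η : Env d | Lk P k y u η} := by
  have h2 : 0 < t / 2 := by linarith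
  have h21 : t / 2 ≤ 1 := by linarith
  obtain ⟨k, hk1, hk⟩ := grow79 (a := fun n => aP ρ P n (t / 2))
    (fun n => aP_pos79 hd hρ P n h2.le h21)
    (fun m n => Pool.Agent.W_7d29a1_P25.superA hd hρ P h2.le h21 m n) (hP _ h2 h21)
    (Real.exp (t / 2) + t / 2 / (t - t / 2)) d
  obtain ⟨y, hy⟩ := exists_end78 hd hρ P h2 h21 hk
  obtain ⟨u, hu1, hu⟩ := lucky (μ := law d ρ) (V := fun η => W P η k y)
    (fun η => W_nonneg78 P η k y) (measurable_W78 P k y) h2 (by linarith) hy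
  exact ⟨k, y, u, hk1, hu1, hu⟩

/-- Many lucky segments in a row. -/
lemma luck79 [IsProbabilityMeasure ρ] (hd : 0 < d) (hρ : EM ρ) (P : Prm d)
    (hL : P.Lam = lam ρ P.be P.h) {k : ℕ} {y : Site d} {t u : ℝ}
    (hp : Real.exp (-(t * u)) ≤ (law d ρ).real {η : Env d | Lk P k y u η}) (r : ℕ) :
    Real.exp (-(t * u * r)) ≤
      (law d ρ).real (Hs P.be P.h (r * k) (A ρ P.be P.h (r * k) + r * u)) := by
  have h1 : Real.exp (-(t * u * r)) = Real.exp (-(t * u)) ^ r := by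
    rw [← Real.exp_nat_mul]
    congr 1
    ring
  rw [h1]
  refine (pow_le_pow_left₀ (Real.exp_pos _).le hp r).trans ((concat78 P k y u r).trans ?_)
  refine measureReal_mono ?_
  intro η hη
  have h2 : Real.exp ((r : ℝ) * u) ≤ W P η (r * k) (r • y) := hη
  have h3 := h2.trans (W_le_ZH78 P η (r * k) (r • y))
  rw [Pool.Agent.W_7d29a1_P25.ZH_exp hd, Real.exp_le_exp, hL] at h3
  have h4 := A_le_lam hd hρ P.be P.h (r * k)
  show A ρ P.be P.h (r * k) + r * u ≤ X P.be P.h η (r * k)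
  linarith

/-- Chebyshev's inequality. -/
lemma cheb79 [IsProbabilityMeasure ρ] (hd : 0 < d) (hρ : EM ρ) (β : ℝ) (h : Vec d) {n : ℕ}
    (hn : 1 ≤ n) {s : ℝ} (hs : 0 < s)
    (hv : Real.sqrt (∫ η, |X β h η n - A ρ β h n| ^ 2 ∂(law d ρ)) ≤ s / 10) :
    (law d ρ).real {η | s ≤ |X β h η n - A ρ β h n|} ≤ 1 / 100 := by
  obtain ⟨C2, _, h2⟩ := momU (ρ := ρ) hd hρ β 2
  obtain ⟨i2, _⟩ := h2 h n hn
  have h3 : ∫ η, |X β h η n - A ρ β h n| ^ 2 ∂(law d ρ) ≤ (s / 10) ^ 2 := by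
    rw [Real.sqrt_le_left (by positivity)] at hv
    exact hv
  have h4 := mul_meas_ge_le_integral_of_nonneg
    (Filter.Eventually.of_forall fun η : Env d => sq_nonneg (|X β h η n - A ρ β h n|)) i2 (s ^ 2)
  have h5 : {η : Env d | s ≤ |X β h η n - A ρ β h n|} ⊆
      {η | s ^ 2 ≤ |X β h η n - A ρ β h n| ^ 2} := by
    intro η hη
    exact pow_le_pow_left₀ hs.le hη 2
  have h6 : s ^ 2 * (law d ρ).real {η : Env d | s ≤ |X β h η n - A ρ β h n|} ≤ (s / 10) ^ 2 :=
    (mul_le_mul_of_nonneg_left (measureReal_mono h5) (sq_nonneg s)).trans (h4.trans h3)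
  have h7 : 0 < s ^ 2 := by positivity
  nlinarith

/-- **Theorem (R)**: the random and the non-random fluctuations of the free energy together are
larger than every multiple of `log n`. -/
theorem mainR79 [IsProbabilityMeasure ρ] (hd : 0 < d) (hρ : EM ρ) (P : Prm d)
    (hL : P.Lam = lam ρ P.be P.h)
    (hP : ∀ t : ℝ, 0 < t → t ≤ 1 → ∃ n, 1 < aP ρ P n t) (B : ℝ) :
    ∀ᶠ n : ℕ in atTop, ∃ m : ℕ, 1 ≤ m ∧ m ≤ n ∧
      B * Real.log n ≤ (m * lam ρ P.be P.h - A ρ P.be P.h m) +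
        Real.sqrt (∫ η, |X P.be P.h η m - A ρ P.be P.h m| ^ 2 ∂(law d ρ)) := by
  -- the constants
  set b : ℝ := max B 1 with hb
  have hb1 : 1 ≤ b := le_max_right _ _
  set t : ℝ := 1 / (2 * (40 * b + 4)) with ht
  have ht0 : 0 < t := by positivity
  have ht1 : t ≤ 1 := by
    rw [ht, div_le_one (by positivity)]
    linarith
  obtain ⟨k, y, u, hk1, hu1, hp⟩ := pair79 hd hρ P hP ht0 ht1
  have hk0 : (1 : ℝ) ≤ k := by exact_mod_cast hk1
  have htu : 0 < t * u := by positivity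
  -- the eventual inequalities
  have hlog : Tendsto (fun n : ℕ => Real.log (n : ℝ)) atTop atTop :=
    Real.tendsto_log_atTop.comp tendsto_natCast_atTop_atTop
  have e1 : ∀ᶠ n : ℕ in atTop, u + 2 + 2 * (t * u) ≤ Real.log n :=
    hlog.eventually_ge_atTop _
  have e2 : ∀ᶠ n : ℕ in atTop, 40 * (k : ℝ) / (t * u) * Real.log n ≤ (n : ℝ) ^ (1 / 4 : ℝ) := by
    have h1 := (isLittleO_log_rpow_atTop (show (0 : ℝ) < 1 / 4 by norm_num)).bound
      (c := 1 / (40 * (k : ℝ) / (t * u))) (by positivity)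
    have h2 := (tendsto_natCast_atTop_atTop (R := ℝ)).eventually h1
    filter_upwards [h2, eventually_ge_atTop 1] with n h3 h4
    have h5 : (1 : ℝ) ≤ n := by exact_mod_cast h4
    rw [Real.norm_eq_abs, Real.norm_eq_abs, abs_of_nonneg (Real.log_nonneg h5),
      abs_of_nonneg (by positivity), one_div, inv_mul_eq_div, le_div_iff₀ (by positivity)] at h3
    linarith
  filter_upwards [e1, e2, eventually_ge_atTop 2] with n hn1 hn2 hn3
  have hnR : (2 : ℝ) ≤ n := by exact_mod_cast hn3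
  have hn0 : (0 : ℝ) < n := by linarith
  set l : ℝ := Real.log n with hl
  have hl0 : 0 < l := by linarith
  by_contra hcon
  push Not at hcon
  have hcon' : ∀ m : ℕ, 1 ≤ m → m ≤ n → (m * lam ρ P.be P.h - A ρ P.be P.h m) +
      Real.sqrt (∫ η, |X P.be P.h η m - A ρ P.be P.h m| ^ 2 ∂(law d ρ)) < b * l := fun m hm1 hm =>
    (hcon m hm1 hm).trans_le (mul_le_mul_of_nonneg_right (le_max_left _ _) hl0.le)
  have hD0 : ∀ m : ℕ, 0 ≤ m * lam ρ P.be P.h - A ρ P.be P.h m := fun m =>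
    sub_nonneg.2 (A_le_lam hd hρ P.be P.h m)
  have hD : ∀ m : ℕ, 1 ≤ m → m ≤ n → m * lam ρ P.be P.h - A ρ P.be P.h m ≤ b * l :=
      fun m hm1 hm => by
    have := hcon' m hm1 hm
    have h2 := Real.sqrt_nonneg (∫ η, |X P.be P.h η m - A ρ P.be P.h m| ^ 2 ∂(law d ρ))
    linarith
  have hS : ∀ m : ℕ, 1 ≤ m → m ≤ n →
      Real.sqrt (∫ η, |X P.be P.h η m - A ρ P.be P.h m| ^ 2 ∂(law d ρ)) ≤ b * l :=
      fun m hm1 hm => by
    have := hcon' m hm1 hm
    have h2 := hD0 m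
    linarith
  -- the number of lucky segments
  set r : ℕ := ⌊l / (2 * (t * u))⌋₊ with hr
  have hrle : (r : ℝ) ≤ l / (2 * (t * u)) := Nat.floor_le (by positivity)
  have hrge : l / (2 * (t * u)) - 1 ≤ r := by
    have := Nat.lt_floor_add_one (l / (2 * (t * u)))
    rw [← hr] at this
    linarith
  have hr1 : 1 ≤ r := by
    rw [hr]
    refine Nat.le_floor ?_
    rw [Nat.cast_one, le_div_iff₀ (by positivity)]
    linarith
  set m : ℕ := r * k with hm
  have hm1 : 1 ≤ m := Nat.mul_pos hr1 hk1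
  have hm0 : (0 : ℝ) < m := by exact_mod_cast hm1
  have hmle : (m : ℝ) ≤ (k : ℝ) / (2 * (t * u)) * l := by
    rw [hm]
    push_cast
    calc (r : ℝ) * k ≤ l / (2 * (t * u)) * k := mul_le_mul_of_nonneg_right hrle (by positivity)
      _ = (k : ℝ) / (2 * (t * u)) * l := by ring
  have hm4 : 80 * (m : ℝ) ≤ (n : ℝ) ^ (1 / 4 : ℝ) := by
    refine le_trans ?_ hn2
    calc 80 * (m : ℝ) ≤ 80 * ((k : ℝ) / (2 * (t * u)) * l) := by linarith
      _ = 40 * (k : ℝ) / (t * u) * l := by field_simp; ring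
  have hn4 : (n : ℝ) ^ (1 / 4 : ℝ) ≤ n := by
    conv_rhs => rw [← Real.rpow_one (n : ℝ)]
    exact Real.rpow_le_rpow_of_exponent_le (by linarith) (by norm_num)
  -- the number of slabs
  set K : ℕ := n / m with hK
  have hKm : K * m ≤ n := Nat.div_mul_le_self n m
  have hKge : (n : ℝ) / m - 1 ≤ K := by
    have h1 : n < m * (K + 1) := Nat.lt_mul_div_succ n hm1
    have h2 : (n : ℝ) < m * (K + 1) := by exact_mod_cast h1
    rw [sub_le_iff_le_add, div_le_iff₀ hm0]
    linarith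
  have hnm : 80 ≤ (n : ℝ) / m := by
    rw [le_div_iff₀ hm0]
    linarith
  have hK3 : 3 ≤ K := by
    have : (3 : ℝ) ≤ K := by linarith
    exact_mod_cast this
  have hK0 : (0 : ℝ) < K := by
    have : 0 < K := by omega
    exact_mod_cast this
  -- the probability
  set q : ℝ := (law d ρ).real (Hs P.be P.h m (A ρ P.be P.h m + r * u)) with hq
  have hqlow : Real.exp (-(l / 2)) ≤ q := by
    refine le_trans ?_ (luck79 hd hρ P hL hp r)
    rw [Real.exp_le_exp, neg_le_neg_iff]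
    rw [le_div_iff₀ (by positivity)] at hrle
    linarith
  have hq0 : 0 < q := (Real.exp_pos _).trans_le hqlow
  have hlogq : -(l / 2) ≤ Real.log q := by
    rw [← Real.log_exp (-(l / 2))]
    exact Real.log_le_log (Real.exp_pos _) hqlow
  have hlogq2 : Real.log (q / 2) + Real.log (1 / 2) = Real.log q - 2 * Real.log 2 := by
    rw [Real.log_div hq0.ne' (by norm_num), one_div, Real.log_inv]
    ring
  have hlog2 : Real.log 2 ≤ 1 := by
    have := Real.log_two_lt_d9
    linarith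
  -- the gain
  have hgain : 33 * (b * l) + l / 2 + 2 < r * u := by
    have h1 : l / (2 * (t * u)) * u = (40 * b + 4) * l := by
      rw [ht]
      field_simp
    have h2 : (l / (2 * (t * u)) - 1) * u ≤ r * u :=
      mul_le_mul_of_nonneg_right hrge (by linarith)
    have h3 : (40 * b + 4) * l - u ≤ r * u := by
      calc (40 * b + 4) * l - u = (l / (2 * (t * u)) - 1) * u := by rw [sub_mul, h1]; ring
        _ ≤ r * u := h2
    have h4 : 0 ≤ b * l := by positivity
    nlinarith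
  have hs0 : 0 < 10 * (b * l) := by positivity
  have hcheb : ∀ i : ℕ, 1 ≤ i → i ≤ n →
      (law d ρ).real {η | 10 * (b * l) ≤ |X P.be P.h η i - A ρ P.be P.h i|} ≤ 1 / 100 := by
    intro i hi1 hin
    refine cheb79 hd hρ P.be P.h hi1 hs0 ?_
    refine (hS i hi1 hin).trans ?_
    linarith
  have hlo : ∀ i : ℕ, 1 ≤ i → i ≤ n →
      (law d ρ).real (Hs P.be P.h i (A ρ P.be P.h i - 10 * (b * l)))ᶜ ≤ 1 / 100 := by
    intro i hi1 hin
    refine (measureReal_mono ?_).trans (hcheb i hi1 hin)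
    intro η hη
    have h1 : ¬ (A ρ P.be P.h i - 10 * (b * l) ≤ X P.be P.h η i) := hη
    push Not at h1
    show 10 * (b * l) ≤ |X P.be P.h η i - A ρ P.be P.h i|
    rw [abs_sub_comm]
    refine le_trans ?_ (le_abs_self _)
    linarith
  have hup : (law d ρ).real {η | A ρ P.be P.h (K * m) + 10 * (b * l) < X P.be P.h η (K * m)} ≤
      1 / 100 := by
    refine (measureReal_mono ?_).trans (hcheb (K * m) (Nat.mul_pos (by omega) hm1) hKm)
    intro η hη
    have h1 : A ρ P.be P.h (K * m) + 10 * (b * l) < X P.be P.h η (K * m) := hη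
    show 10 * (b * l) ≤ |X P.be P.h η (K * m) - A ρ P.be P.h (K * m)|
    refine le_trans ?_ (le_abs_self _)
    linarith
  have hmul : ∀ i : ℕ, 1 ≤ i → i ≤ K → 1 ≤ i * m ∧ i * m ≤ n := fun i hi1 hi2 =>
    ⟨Nat.mul_pos hi1 hm1, (Nat.mul_le_mul_right m hi2).trans hKm⟩
  have hmain : q ≤ 9 / K := by
    refine exc_core (ρ := ρ) hd P.be P.h hK3 (M := A ρ P.be P.h) (s := 10 * (b * l))
      (t := r * u) hq hq0 ?_ ?_ ?_ hup
    · intro j hj
      obtain ⟨h1, h2⟩ := hmul (j + 1) (by omega) (by omega)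
      exact hlo _ h1 h2
    · intro j hj
      obtain ⟨h1, h2⟩ := hmul (K - 2 - j) (by omega) (by omega)
      exact hlo _ h1 h2
    · intro j hj
      obtain ⟨h1, h2⟩ := hmul (j + 1) (by omega) (by omega)
      obtain ⟨h3, h4⟩ := hmul (K - 2 - j) (by omega) (by omega)
      have h5 := hD _ h1 h2
      have h6 := hD _ h3 h4
      have h7 := hD m hm1 (le_trans (Nat.le_mul_of_pos_left m (by omega)) hKm)
      have h8 := hD0 (K * m)
      have h9 : ((K * m : ℕ) : ℝ) * lam ρ P.be P.h =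
          (((j + 1) * m : ℕ) : ℝ) * lam ρ P.be P.h + (m : ℝ) * lam ρ P.be P.h +
            (((K - 2 - j) * m : ℕ) : ℝ) * lam ρ P.be P.h := by
        have h10 : K * m = (j + 1) * m + m + (K - 2 - j) * m := by
          have h11 : K = j + 1 + 1 + (K - 2 - j) := by omega
          calc K * m = (j + 1 + 1 + (K - 2 - j)) * m := by rw [← h11]
            _ = (j + 1) * m + m + (K - 2 - j) * m := by ring
        rw [h10]
        push_cast
        ring
      linarith
  -- the contradiction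
  have h1 : (K : ℝ) * q ≤ 9 := by
    rw [le_div_iff₀ hK0] at hmain
    linarith
  have h2 : (n : ℝ) / (2 * m) ≤ K := by
    have h3 : (n : ℝ) / (2 * m) = (n : ℝ) / m / 2 := by
      rw [div_div, mul_comm]
    rw [h3]
    linarith
  have h3 : Real.exp (-(l / 2)) = (n : ℝ) ^ (-(1 / 2) : ℝ) := by
    rw [Real.rpow_def_of_pos hn0]
    congr 1
    rw [← hl]
    ring
  have h4 : (n : ℝ) / (2 * m) * (n : ℝ) ^ (-(1 / 2) : ℝ) ≤ 9 := by
    rw [← h3]
    exact (mul_le_mul h2 hqlow (Real.exp_pos _).le hK0.le).trans h1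
  have h5 : (n : ℝ) * (n : ℝ) ^ (-(1 / 2) : ℝ) = (n : ℝ) ^ (1 / 2 : ℝ) := by
    conv_lhs => rw [← Real.rpow_one (n : ℝ)]
    rw [← Real.rpow_mul hn0.le, ← Real.rpow_add hn0]
    norm_num
  have h6 : (n : ℝ) ^ (1 / 2 : ℝ) ≤ 18 * m := by
    have h7 : (n : ℝ) / (2 * m) * (n : ℝ) ^ (-(1 / 2) : ℝ) =
        ((n : ℝ) * (n : ℝ) ^ (-(1 / 2) : ℝ)) / (2 * m) := by ring
    rw [h7, h5, div_le_iff₀ (by positivity)] at h4
    linarith
  have h7 : (n : ℝ) ^ (1 / 4 : ℝ) < (n : ℝ) ^ (1 / 2 : ℝ) :=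
    Real.rpow_lt_rpow_of_exponent_lt (by linarith) (by norm_num)
  linarith

end Pool.Agent.W_7d29a1_P79
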