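import Pool.Agent.W_7d29a1_P79.R79
import Pool.Agent.W_7d29a1_VT.Non74

/-!
# The second moment form of Theorem (R), in the letters of the model and of the problem
-/

set_option autoImplicit false

namespace Pool.Agent.W_7d29a1_P79

open MeasureTheory ProbabilityTheory Filter Topology Pool.Agent.W_MP_7d29a1_pr
  Pool.Agent.W_7d29a1_h46 Pool.Agent.W_7d29a1_h46u Pool.Agent.W_7d29a1_D2.B35
  Pool.Agent.W_7d29a1_P89 Pool.Agent.W_7d29a1_P78

variable {d : ℕ} {ρ : Measure ℝ} [IsProbabilityMeasure ρ]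

/-- The second moment about a constant. -/
lemma sq79 (hd : 0 < d) (hρ : EM ρ) (β : ℝ) (h : Vec d) {n : ℕ} (hn : 1 ≤ n) (c : ℝ) :
    ∫ η, (X β h η n - c) ^ 2 ∂(law d ρ) =
      ∫ η, |X β h η n - A ρ β h n| ^ 2 ∂(law d ρ) + (c - A ρ β h n) ^ 2 := by
  obtain ⟨C2, _, h2⟩ := momU (ρ := ρ) hd hρ β 2
  obtain ⟨i2, _⟩ := h2 h n hn
  have i1 : Integrable (fun η => X β h η n) (law d ρ) := (concU hd hρ β h n).1
  have i1' : Integrable (fun η => 2 * (A ρ β h n - c) * (X β h η n - A ρ β h n)) (law d ρ) :=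
    (i1.sub (integrable_const _)).const_mul _
  have hz : ∫ η, 2 * (A ρ β h n - c) * (X β h η n - A ρ β h n) ∂(law d ρ) = 0 := by
    rw [integral_const_mul, integral_sub i1 (integrable_const _)]
    simp only [integral_const, probReal_univ, smul_eq_mul, one_mul]
    have : ∫ η, X β h η n ∂(law d ρ) = A ρ β h n := rfl
    rw [this]
    ring
  have he : ∀ η : Env d, (X β h η n - c) ^ 2 = |X β h η n - A ρ β h n| ^ 2 +
      2 * (A ρ β h n - c) * (X β h η n - A ρ β h n) + (c - A ρ β h n) ^ 2 := by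
    intro η
    rw [sq_abs]
    ring
  simp only [he]
  have i3 : Integrable (fun η : Env d => |X β h η n - A ρ β h n| ^ 2 +
      2 * (A ρ β h n - c) * (X β h η n - A ρ β h n)) (law d ρ) := i2.add i1'
  rw [integral_add i3 (integrable_const _), integral_add i2 i1', hz, integral_const]
  simp

/-- **Theorem (R)**, second moment form. -/
theorem sec79 (hd : 0 < d) (hρ : EM ρ) (P : Prm d) (hL : P.Lam = lam ρ P.be P.h)
    (hP : ∀ t : ℝ, 0 < t → t ≤ 1 → ∃ n, 1 < aP ρ P n t) (B : ℝ) :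
    ∀ᶠ n : ℕ in atTop, ∃ m : ℕ, 1 ≤ m ∧ m ≤ n ∧
      B * Real.log n ^ 2 ≤ ∫ η, (X P.be P.h η m - m * lam ρ P.be P.h) ^ 2 ∂(law d ρ) := by
  set b : ℝ := max B 1 with hb
  have hb1 : 1 ≤ b := le_max_right _ _
  filter_upwards [mainR79 hd hρ P hL hP (2 * b), eventually_ge_atTop 1] with n hn hn1
  obtain ⟨m, hm1, hmn, hm⟩ := hn
  refine ⟨m, hm1, hmn, ?_⟩
  rw [sq79 hd hρ P.be P.h hm1]
  set l : ℝ := Real.log n with hl
  have hl0 : 0 ≤ l := Real.log_nonneg (by exact_mod_cast hn1)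
  set V : ℝ := ∫ η, |X P.be P.h η m - A ρ P.be P.h m| ^ 2 ∂(law d ρ) with hV
  have hV0 : 0 ≤ V := integral_nonneg fun η => sq_nonneg _
  set D : ℝ := m * lam ρ P.be P.h - A ρ P.be P.h m with hD
  have hs := Real.sq_sqrt hV0
  set s : ℝ := Real.sqrt V with hs'
  have h0 : 0 ≤ 2 * b * l := by positivity
  have h1 : (2 * b * l) ^ 2 ≤ (D + s) ^ 2 := pow_le_pow_left₀ h0 hm 2
  have h2 : (D + s) ^ 2 ≤ 2 * (V + D ^ 2) := by nlinarith [sq_nonneg (D - s)]
  have h3 : B * l ^ 2 ≤ b * l ^ 2 := mul_le_mul_of_nonneg_right (le_max_left _ _) (sq_nonneg _)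
  have h4 : b * l ^ 2 ≤ b ^ 2 * l ^ 2 := by
    refine mul_le_mul_of_nonneg_right ?_ (sq_nonneg _)
    nlinarith
  nlinarith

variable {Ω : Type*} [MeasurableSpace Ω] {μ : Measure Ω} [IsProbabilityMeasure μ]
  {ω : ℕ × Site d → Ω → ℝ}

/-- The second moment of the problem in the letters of the model. -/
lemma tr79 (hd : 0 < d) (hω : IID μ ρ ω) (β : ℝ) (h : Vec d) (n : ℕ) (c : ℝ) :
    ∫ y, (Real.log (Zn β h (fun p => ω p y) n) - n * (c - Real.log (2 * d))) ^ 2 ∂μ =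
      ∫ η, (X β h η n - n * c) ^ 2 ∂(law d ρ) := by
  have hX := measurable_X (d := d) β h n
  have e3 : ∫ y, (Real.log (Zn β h (fun p => ω p y) n) - n * (c - Real.log (2 * d))) ^ 2 ∂μ =
      ∫ y, (fun η : Env d => (X β h η n - n * c) ^ 2) (fun p => ω p y) ∂μ := by
    refine integral_congr_ae (Filter.Eventually.of_forall fun y => ?_)
    show (Real.log (Zn β h (fun p => ω p y) n) - n * (c - Real.log (2 * d))) ^ 2 =
      (X β h (fun p => ω p y) n - n * c) ^ 2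
    rw [StrA_log hd β h _ n, Real.log_pow]
    congr 1
    ring
  rw [e3]
  exact StrA_int hω ((hX.sub_const _).pow_const 2)

/-- **Theorem (R)** in the letters of the problem: in very strong disorder, for every `B` and all
large `n`, some `m ≤ n` has `E (log Z_m - m f) ^ 2 ≥ B (log n) ^ 2`, where `f = lam - log (2 d)` is
the free energy. -/
theorem prob79 (hd : 0 < d) (hω : IID μ ρ ω) (hρ : EM ρ) (β : ℝ) (h : Vec d)
    (hP : ∀ t : ℝ, 0 < t → t ≤ 1 → ∃ n, 1 < aP ρ ⟨lam ρ β h, β, h, 1⟩ n t) (B : ℝ) :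
    ∀ᶠ n : ℕ in atTop, ∃ m : ℕ, 1 ≤ m ∧ m ≤ n ∧ B * Real.log n ^ 2 ≤
      ∫ y, (Real.log (Zn β h (fun p => ω p y) m) - m * (lam ρ β h - Real.log (2 * d))) ^ 2 ∂μ := by
  filter_upwards [sec79 hd hρ ⟨lam ρ β h, β, h, 1⟩ rfl hP B] with n hn
  obtain ⟨m, hm1, hmn, hm⟩ := hn
  refine ⟨m, hm1, hmn, ?_⟩
  rw [tr79 hd hω]
  exact hm

end Pool.Agent.W_7d29a1_P79
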